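import Pool.Agent.W830.RD.Stm

/-!
Project RD (helper830), part PAT: coding of the patterns (helper557).
-/

set_option autoImplicit false

open Pool.Agent.W830.RD Finset
open scoped Classical

namespace Pool.Agent.W557.RD.Pat

noncomputable section

/-! ### Chains and positions -/

theorem pos_lt {β : Type} [PartialOrder β] (C : Finset β) (z y : β) (hz : z ∈ C) (h : z < y) :
    pos C z < pos C y := by
  unfold pos
  refine Finset.card_lt_card ?_
  rw [Finset.ssubset_iff_of_subset]
  · exact ⟨z, Finset.mem_filter.2 ⟨hz, h⟩, fun h' => lt_irrefl _ (Finset.mem_filter.1 h').2⟩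
  · intro w hw
    rw [Finset.mem_filter] at hw ⊢
    exact ⟨hw.1, hw.2.trans h⟩

theorem pos_lt_card {β : Type} [PartialOrder β] (C : Finset β) (y : β) (hy : y ∈ C) :
    pos C y < C.card := by
  unfold pos
  refine Finset.card_lt_card ?_
  rw [Finset.ssubset_iff_of_subset (Finset.filter_subset _ _)]
  exact ⟨y, hy, fun h' => lt_irrefl _ (Finset.mem_filter.1 h').2⟩

theorem exists_top {β : Type} [PartialOrder β] (C : Finset β) (hC : Chn C) (hne : C.Nonempty) :
    ∃ y ∈ C, pos C y + 1 = C.card := by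
  obtain ⟨y, hy, hmax⟩ := C.exists_maximal hne
  refine ⟨y, hy, ?_⟩
  have h1 : C.filter (fun z => z < y) = C.erase y := by
    ext z
    rw [Finset.mem_filter, Finset.mem_erase]
    constructor
    · rintro ⟨h1, h2⟩
      exact ⟨h2.ne, h1⟩
    · rintro ⟨h1, h2⟩
      refine ⟨h2, lt_of_le_of_ne ?_ h1⟩
      rcases hC z h2 y hy with h | h
      · exact h
      · exact hmax h2 h
  unfold pos
  rw [h1, Finset.card_erase_of_mem hy]
  have : 0 < C.card := Finset.card_pos.2 hne
  omega

/-! ### The relation -/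

variable {β : Type} [Fintype β] [PartialOrder β] (F : Finset (Finset β)) (ρ : Finset β → ℕ → ℕ)
  (θ : β → ℕ → ℕ → ℕ) (ch : β → Finset β)

/-- the relation coded by the pattern -/
def Qr (x y : β) : Prop :=
  ch x ≠ ch y ∧ (ch x).card ≤ (ch y).card ∧
    (pos (ch y) y + 1 = (ch y).card ∨ θ x (ch y).card (pos (ch y) y) ≤ ρ (ch y) (pos (ch y) y)) ∧
    ∀ z, ch z = ch y → pos (ch z) z < pos (ch y) y →
      ρ (ch z) (pos (ch z) z) < θ x (ch z).card (pos (ch z) z)

/-- `ch` is the chain of a point -/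
structure IsCh : Prop where
  pt : Part F (Finset.univ : Finset β)
  mem : ∀ x, ch x ∈ F
  self : ∀ x, x ∈ ch x

omit [Fintype β] in
theorem mem_iff {F : Finset (Finset β)} {ch : β → Finset β} [Fintype β] (h : IsCh F ch)
    {C : Finset β} (hC : C ∈ F) (x : β) : x ∈ C ↔ ch x = C := by
  constructor
  · intro hx
    by_contra hne
    exact Finset.disjoint_left.1 (h.pt.dj _ (h.mem x) _ hC hne) (h.self x) hx
  · rintro rfl
    exact h.self x

theorem exists_ch {F : Finset (Finset β)} (h : Part F (Finset.univ : Finset β)) :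
    ∃ ch : β → Finset β, IsCh F ch := by
  have h1 : ∀ x : β, ∃ C ∈ F, x ∈ C := by
    intro x
    have : x ∈ F.biUnion id := by
      rw [h.un]
      exact Finset.mem_univ _
    rw [Finset.mem_biUnion] at this
    exact this
  choose ch h2 h3 using h1
  exact ⟨ch, h, h2, h3⟩

theorem exists_Q {F : Finset (Finset β)} {ch : β → Finset β} (h : IsCh F ch)
    {C1 C : Finset β} (h1 : C1 ∈ F) (hC : C ∈ F) (hne : C ≠ C1) (hle : C1.card ≤ C.card)
    (x : β) (hx : x ∈ C1) : ∃ y ∈ C, Qr ρ θ ch x y := by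
  have hx' := (mem_iff h h1 x).1 hx
  -- the elements with the required property
  let S : Finset β := C.filter (fun y => pos C y + 1 = C.card ∨ θ x C.card (pos C y) ≤ ρ C (pos C y))
  have hS : S.Nonempty := by
    obtain ⟨y, hy, hy2⟩ := exists_top C (h.pt.ch C hC) (h.pt.ne C hC)
    exact ⟨y, Finset.mem_filter.2 ⟨hy, Or.inl hy2⟩⟩
  obtain ⟨y, hy, hmin⟩ := Finset.exists_min_image S (fun y => pos C y) hS
  rw [Finset.mem_filter] at hy
  have hy' := (mem_iff h hC y).1 hy.1
  refine ⟨y, hy.1, ?_⟩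
  unfold Qr
  rw [hx', hy']
  refine ⟨hne.symm, hle, hy.2, ?_⟩
  intro z hz hlt
  rw [hz] at hlt ⊢
  have hzC := (mem_iff h hC z).2 hz
  by_contra hcon
  have hzS : z ∈ S := Finset.mem_filter.2 ⟨hzC, Or.inr (not_lt.1 hcon)⟩
  have := hmin z hzS
  omega

/-- the ordered pairs -/
def Om2 : Finset (β × β) := Finset.univ.filter (fun e => Qr ρ θ ch e.1 e.2 ∨ Qr ρ θ ch e.2 e.1)

theorem count {F : Finset (Finset β)} {ch : β → Finset β} (h : IsCh F ch) :
    prof F ≤ Fintype.card β + (Om2 ρ θ ch).card := by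
  have hfib : ∀ C ∈ F, ∀ C' ∈ F, C ≠ C' → min C.card C'.card ≤
      ((Om2 ρ θ ch).filter (fun e => (ch e.1, ch e.2) = (C, C'))).card := by
    intro C hC C' hC' hne
    rcases le_total C.card C'.card with hle | hle
    · have h1 : ∀ x : β, ∃ y : β, x ∈ C → y ∈ C' ∧ Qr ρ θ ch x y := by
        intro x
        by_cases hx : x ∈ C
        · obtain ⟨y, hy, hQ⟩ := exists_Q ρ θ h hC hC' hne.symm hle x hx
          exact ⟨y, fun _ => ⟨hy, hQ⟩⟩
        · exact ⟨x, fun hx' => absurd hx' hx⟩
      choose g hg using h1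
      refine (min_le_left _ _).trans ?_
      refine Finset.card_le_card_of_injOn (fun x => (x, g x)) ?_ ?_
      · intro x hx
        have hx' : x ∈ C := hx
        show (x, g x) ∈ ((Om2 ρ θ ch).filter (fun e => (ch e.1, ch e.2) = (C, C')))
        rw [Finset.mem_filter]
        refine ⟨Finset.mem_filter.2 ⟨Finset.mem_univ _, Or.inl (hg x hx').2⟩, ?_⟩
        show (ch x, ch (g x)) = (C, C')
        rw [(mem_iff h hC x).1 hx', (mem_iff h hC' (g x)).1 (hg x hx').1]
      · intro x _ y _ hxy
        exact (Prod.ext_iff.1 hxy).1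
    · have h1 : ∀ x : β, ∃ y : β, x ∈ C' → y ∈ C ∧ Qr ρ θ ch x y := by
        intro x
        by_cases hx : x ∈ C'
        · obtain ⟨y, hy, hQ⟩ := exists_Q ρ θ h hC' hC hne hle x hx
          exact ⟨y, fun _ => ⟨hy, hQ⟩⟩
        · exact ⟨x, fun hx' => absurd hx' hx⟩
      choose g hg using h1
      refine (min_le_right _ _).trans ?_
      refine Finset.card_le_card_of_injOn (fun x => (g x, x)) ?_ ?_
      · intro x hx
        have hx' : x ∈ C' := hx
        show (g x, x) ∈ ((Om2 ρ θ ch).filter (fun e => (ch e.1, ch e.2) = (C, C')))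
        rw [Finset.mem_filter]
        refine ⟨Finset.mem_filter.2 ⟨Finset.mem_univ _, Or.inr (hg x hx').2⟩, ?_⟩
        show (ch (g x), ch x) = (C, C')
        rw [(mem_iff h hC' x).1 hx', (mem_iff h hC (g x)).1 (hg x hx').1]
      · intro x _ y _ hxy
        exact (Prod.ext_iff.1 hxy).2
  have hsum : (Om2 ρ θ ch).card = ∑ b ∈ F ×ˢ F,
      ((Om2 ρ θ ch).filter (fun e => (ch e.1, ch e.2) = b)).card := by
    refine Finset.card_eq_sum_card_fiberwise ?_
    intro e _
    exact Finset.mem_coe.2 (Finset.mem_product.2 ⟨h.mem _, h.mem _⟩)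
  have hdiag : ∑ C ∈ F, C.card = Fintype.card β := by
    have h2 : (F.biUnion id).card = ∑ C ∈ F, C.card := by
      rw [Finset.card_biUnion]
      · rfl
      · intro C hC C' hC' hne
        exact h.pt.dj C hC C' hC' hne
    rw [← h2, h.pt.un, Finset.card_univ]
  have hprof : prof F = ∑ b ∈ F ×ˢ F, min b.1.card b.2.card := by
    unfold prof
    rw [Finset.sum_product]
  have hd2 : ∑ b ∈ F ×ˢ F, (if b.1 = b.2 then b.1.card else 0) = Fintype.card β := by
    rw [Finset.sum_product, ← hdiag]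
    refine Finset.sum_congr rfl fun C hC => ?_
    rw [Finset.sum_ite_eq F C (fun _ => C.card), if_pos hC]
  rw [hprof, hsum, ← hd2, ← Finset.sum_add_distrib]
  refine Finset.sum_le_sum fun b hb => ?_
  rw [Finset.mem_product] at hb
  by_cases hbb : b.1 = b.2
  · rw [if_pos hbb]
    exact (min_le_left _ _).trans (Nat.le_add_right _ _)
  · rw [if_neg hbb, zero_add]
    exact hfib b.1 hb.1 b.2 hb.2 hbb

/-! ### Codes -/

/-- coordinates of a code -/
abbrev Co (K : ℕ) : Type := Fin 4 ⊕ (Fin (K + 1) × Fin (K + 1))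

/-- codes -/
abbrev Cd (K r : ℕ) : Type := Fin r → Co K → Fin (r + 2)

variable {K r : ℕ}

/-- name of the chain -/
def cid (κ : Cd K r) (x : Fin r) : ℕ := (κ x (Sum.inl 0)).val
/-- length of the chain -/
def cln (κ : Cd K r) (x : Fin r) : ℕ := (κ x (Sum.inl 1)).val
/-- position -/
def cps (κ : Cd K r) (x : Fin r) : ℕ := (κ x (Sum.inl 2)).val
/-- rank -/
def crh (κ : Cd K r) (x : Fin r) : ℕ := (κ x (Sum.inl 3)).val
/-- thresholds -/
def cth (κ : Cd K r) (x : Fin r) (l a : ℕ) : ℕ :=
  if h : l < K + 1 ∧ a < K + 1 then (κ x (Sum.inr (⟨l, h.1⟩, ⟨a, h.2⟩))).val else 0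

/-- the coded relation -/
def Qc (κ : Cd K r) (x y : Fin r) : Prop :=
  cid κ x ≠ cid κ y ∧ cln κ x ≤ cln κ y ∧
    (cps κ y + 1 = cln κ y ∨ cth κ x (cln κ y) (cps κ y) ≤ crh κ y) ∧
    ∀ z, cid κ z = cid κ y → cps κ z < cps κ y → crh κ z < cth κ x (cln κ z) (cps κ z)

/-- the coded pattern -/
def dec (κ : Cd K r) : Finset (Fin r × Fin r) :=
  Finset.univ.filter (fun e => e.1 < e.2 ∧ (Qc κ e.1 e.2 ∨ Qc κ e.2 e.1))

/-- `Fin r` without its order -/
def FR (r : ℕ) : Type := Fin r

instance (r : ℕ) : Fintype (FR r) := inferInstanceAs (Fintype (Fin r))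

theorem card_FR (r : ℕ) : Fintype.card (FR r) = r := Fintype.card_fin r

theorem exists_code [PartialOrder (FR r)] {F : Finset (Finset (FR r))} {ch : FR r → Finset (FR r)}
    (h : IsCh F ch) (ρ : Finset (FR r) → ℕ → ℕ) (θ : FR r → ℕ → ℕ → ℕ)
    (hK : ∀ C ∈ F, C.card ≤ K) (hρ : ∀ C a, ρ C a ≤ r) (hθ : ∀ x l a, θ x l a ≤ r + 1) :
    ∃ κ : Cd K r, ∀ x y : Fin r, Qc κ x y ↔ Qr ρ θ ch x y := by
  have hcard : ∀ C : Finset (FR r), C.card ≤ r := by
    intro C
    have := Finset.card_le_univ C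
    rwa [card_FR] at this
  have hrep : ∀ C : Finset (FR r), ∃ x : ℕ, x < r + 2 ∧ (C ∈ F → ∃ hx : x < r,
      ((⟨x, hx⟩ : Fin r) : FR r) ∈ C) := by
    intro C
    by_cases hC : C ∈ F
    · obtain ⟨x, hx⟩ := h.pt.ne C hC
      exact ⟨(x : Fin r).val, by have := (x : Fin r).isLt; omega, fun _ => ⟨(x : Fin r).isLt, hx⟩⟩
    · exact ⟨0, by omega, fun h' => absurd h' hC⟩
  choose rep hrep1 hrep2 using hrep
  let κ : Cd K r := fun x c => match c with
    | Sum.inl i =>
      if i = 0 then ⟨rep (ch x), hrep1 _⟩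
      else if i = 1 then ⟨(ch x).card, by have := hcard (ch x); omega⟩
      else if i = 2 then ⟨pos (ch x) x, by
        have := pos_lt_card (ch x) x (h.self x)
        have := hcard (ch x)
        omega⟩
      else ⟨ρ (ch x) (pos (ch x) x), by have := hρ (ch x) (pos (ch x) x); omega⟩
    | Sum.inr p => ⟨θ x p.1 p.2, by have := hθ x p.1 p.2; omega⟩
  have e0 : ∀ x : Fin r, cid κ x = rep (ch x) := fun x => rfl
  have e1 : ∀ x : Fin r, cln κ x = (ch x).card := fun x => rfl
  have e2 : ∀ x : Fin r, cps κ x = pos (ch x) (x : FR r) := fun x => rfl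
  have e3 : ∀ x : Fin r, crh κ x = ρ (ch x) (pos (ch x) (x : FR r)) := fun x => rfl
  have e4 : ∀ (x : Fin r) (l a : ℕ), l < K + 1 → a < K + 1 → cth κ x l a = θ x l a := by
    intro x l a hl ha
    unfold cth
    rw [dif_pos ⟨hl, ha⟩]
  have e5 : ∀ x y : Fin r, cid κ x = cid κ y ↔ ch x = ch y := by
    intro x y
    rw [e0, e0]
    constructor
    · intro hxy
      obtain ⟨hx, hx'⟩ := hrep2 (ch x) (h.mem x)
      obtain ⟨hy, hy'⟩ := hrep2 (ch y) (h.mem y)
      have h1 := (mem_iff h (h.mem x) _).1 hx'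
      have h2 := (mem_iff h (h.mem y) _).1 hy'
      rw [← h1, ← h2]
      congr 1
      exact Fin.ext hxy
    · intro hxy
      rw [hxy]
  have e6 : ∀ (x z : Fin r), cth κ x (cln κ z) (cps κ z) = θ x (ch z).card (pos (ch z) z) := by
    intro x z
    have h1 := hK (ch z) (h.mem z)
    have h2 := pos_lt_card (ch z) z (h.self z)
    rw [e1, e2, e4 x _ _ (by omega) (by omega)]
  refine ⟨κ, fun x y => ?_⟩
  unfold Qc Qr
  refine and_congr (not_congr (e5 x y)) (and_congr Iff.rfl (and_congr ?_ ?_))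
  · rw [e6, e1, e2, e3]
  · constructor
    · intro hz z h1 h2
      have := hz z ((e5 z y).2 h1) h2
      rwa [e6, e3] at this
    · intro hz z h1 h2
      rw [e6, e3]
      exact hz z ((e5 z y).1 h1) h2

theorem mem_dec (κ : Cd K r) (x y : Fin r) :
    (x, y) ∈ dec κ ↔ x < y ∧ (Qc κ x y ∨ Qc κ y x) := by
  unfold dec
  rw [Finset.mem_filter]
  exact and_iff_right (Finset.mem_univ _)

theorem card_dec [PartialOrder (FR r)] {ch : FR r → Finset (FR r)} (ρ : Finset (FR r) → ℕ → ℕ)
    (θ : FR r → ℕ → ℕ → ℕ) (κ : Cd K r) (hκ : ∀ x y : Fin r, Qc κ x y ↔ Qr ρ θ ch x y) :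
    (Om2 ρ θ ch).card ≤ 2 * (dec κ).card := by
  have h1 : (Om2 ρ θ ch).card ≤ (dec κ ∪ (dec κ).image Prod.swap).card := by
    refine Finset.card_le_card_of_injOn
      (fun e : FR r × FR r => ((show Fin r from e.1), (show Fin r from e.2))) ?_ ?_
    · rintro ⟨x, y⟩ he
      have he' : Qr ρ θ ch x y ∨ Qr ρ θ ch y x := (Finset.mem_filter.1 he).2
      have hne : x ≠ y := by
        intro h
        rcases he' with h' | h'
        · exact h'.1 (congrArg ch h)
        · exact h'.1 (congrArg ch h.symm)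
      have he2 : Qc κ x y ∨ Qc κ y x := by
        rcases he' with h' | h'
        · exact Or.inl ((hκ _ _).2 h')
        · exact Or.inr ((hκ _ _).2 h')
      refine Finset.mem_coe.2 (Finset.mem_union.2 ?_)
      rcases lt_or_gt_of_ne (show (show Fin r from x) ≠ (show Fin r from y) from hne)
        with hlt | hgt
      · exact Or.inl ((mem_dec κ x y).2 ⟨hlt, he2⟩)
      · exact Or.inr (Finset.mem_image.2 ⟨((show Fin r from y), (show Fin r from x)),
          (mem_dec κ y x).2 ⟨hgt, he2.symm⟩, rfl⟩)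
    · rintro ⟨x, y⟩ _ ⟨x', y'⟩ _ h
      exact h
  refine h1.trans ?_
  have h3 := Finset.card_union_le (dec κ) ((dec κ).image Prod.swap)
  have h2 := Finset.card_image_le (s := dec κ) (f := Prod.swap)
  omega

theorem card_Pi (K r : ℕ) : ((Finset.univ : Finset (Cd K r)).image dec).card ≤
    (r + 2) ^ (Fintype.card (Co K) * r) := by
  refine Finset.card_image_le.trans ?_
  rw [Finset.card_univ, Fintype.card_fun, Fintype.card_fun, Fintype.card_fin, Fintype.card_fin,
    pow_mul]

theorem main (h : S_EXCH) : S_PAT := by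
  intro K
  refine ⟨Fintype.card (Co K), fun r => (Finset.univ : Finset (Cd K r)).image dec, ?_⟩
  intro r
  refine ⟨card_Pi K r, ?_, ?_⟩
  · intro π hπ e he
    rw [Finset.mem_image] at hπ
    obtain ⟨κ, -, rfl⟩ := hπ
    exact (Finset.mem_filter.1 he).2.1
  · intro α _ f hf hK
    let f' : FR r → α := f
    have hf' : Function.Injective f' := hf
    let _ : PartialOrder (FR r) := PartialOrder.lift f' hf'
    obtain ⟨F, ρ, θ, hP, hρ, hθ, hQ⟩ := h (FR r)
    rw [card_FR] at hρ hθ
    obtain ⟨ch, hch⟩ := exists_ch hP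
    have himc : ∀ C : Finset (FR r), (Finset.image f' C).card = C.card := fun C =>
      Finset.card_image_of_injective C hf'
    have hchn : ∀ C ∈ F, Chn (Finset.image f' C) := by
      intro C hC x hx y hy
      rw [Finset.mem_image] at hx hy
      obtain ⟨x', hx', rfl⟩ := hx
      obtain ⟨y', hy', rfl⟩ := hy
      exact hP.ch C hC x' hx' y' hy'
    have hKF : ∀ C ∈ F, C.card ≤ K := by
      intro C hC
      rw [← himc]
      exact hK _ (Finset.image_subset_image (Finset.subset_univ _)) (hchn C hC)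
    obtain ⟨κ, hκ⟩ := exists_code (K := K) hch ρ θ hKF hρ hθ
    refine ⟨F.image (fun C => Finset.image f' C), ?_, dec κ, Finset.mem_image_of_mem _
      (Finset.mem_univ _), ?_, ?_⟩
    · refine ⟨?_, ?_, ?_, ?_⟩
      · intro C hC
        rw [Finset.mem_image] at hC
        obtain ⟨C0, hC0, rfl⟩ := hC
        exact hchn C0 hC0
      · intro C hC
        rw [Finset.mem_image] at hC
        obtain ⟨C0, hC0, rfl⟩ := hC
        exact (hP.ne C0 hC0).image f'
      · intro C hC C' hC' hne
        rw [Finset.mem_image] at hC hC'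
        obtain ⟨C0, hC0, rfl⟩ := hC
        obtain ⟨C1, hC1, rfl⟩ := hC'
        have hne' : C0 ≠ C1 := fun h' => hne (by rw [h'])
        exact (Finset.disjoint_image hf').2 (hP.dj C0 hC0 C1 hC1 hne')
      · ext a
        rw [Finset.mem_biUnion, Finset.mem_image]
        constructor
        · rintro ⟨C, hC, ha⟩
          rw [Finset.mem_image] at hC
          obtain ⟨C0, hC0, rfl⟩ := hC
          obtain ⟨x, -, hx⟩ := Finset.mem_image.1 ha
          exact ⟨x, Finset.mem_univ _, hx⟩
        · rintro ⟨x, -, rfl⟩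
          exact ⟨Finset.image f' (ch x), Finset.mem_image_of_mem _ (hch.mem x),
            Finset.mem_image_of_mem _ (hch.self x)⟩
    · intro e he
      have he' := (Finset.mem_filter.1 he).2.2
      have hinc : ∀ x y : Fin r, Qr ρ θ ch x y → Inc (f x) (f y) := by
        intro x y hxy
        have h1 : Inc (α := FR r) x y := by
          refine hQ (ch x) (hch.mem x) (ch y) (hch.mem y) hxy.1.symm hxy.2.1 x (hch.self x) y
            (hch.self y) hxy.2.2.1 ?_
          intro z hz hlt
          have hz' := (mem_iff hch (hch.mem y) z).1 hz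
          have h2 := hxy.2.2.2 z hz' (by
            rw [hz']
            exact pos_lt (ch y) z y hz hlt)
          rwa [hz'] at h2
        exact h1
      rcases he' with h' | h'
      · exact hinc _ _ ((hκ _ _).1 h')
      · exact (hinc _ _ ((hκ _ _).1 h')).symm
    · have h1 : prof (F.image (fun C => Finset.image f' C)) = prof F := by
        unfold prof
        have hinj : Set.InjOn (fun C : Finset (FR r) => Finset.image f' C) (F : Set (Finset (FR r))) :=
          (Finset.image_injective hf').injOn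
        rw [Finset.sum_image hinj]
        refine Finset.sum_congr rfl fun C _ => ?_
        rw [Finset.sum_image hinj]
        refine Finset.sum_congr rfl fun C' _ => ?_
        rw [himc, himc]
      rw [h1]
      have h2 := count ρ θ hch
      have h3 := card_dec ρ θ κ hκ
      rw [card_FR] at h2
      omega

end

end Pool.Agent.W557.RD.Pat
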